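import Pool.Agent.H99.CE.Targets

set_option autoImplicit false

/-!
# crx_modules, row INS: the chains of the polymer
-/

open MeasureTheory ProbabilityTheory Filter Topology
open scoped ENNReal
open Pool.Agent.H95 Pool.Agent.H95.Cop Pool.Agent.H96.Cop Pool.Agent.H99.CE

namespace Pool.Agent.H89.CE

theorem ins_mem {M J j c : ℕ} (hj : j < J) (hc : c ∈ TT M j) : c < J * M := by
  have h1 := (Finset.mem_Ico.1 hc).2
  exact lt_of_lt_of_le h1 (Nat.mul_le_mul_right M hj)

theorem ins_CT {G : ℕ → (ℕ → ℝ) → ℝ≥0∞} (hG : ∀ b, Measurable (G b)) (T : Finset ℕ) (p : ℕ) :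
    Measurable (CT G T p) := by
  have h : CT G T p = fun x => ∑ j ∈ T, if p ≤ j then G (j - p) x else 0 := rfl
  rw [h]
  refine Finset.measurable_sum _ fun j _ => ?_
  by_cases hp : p ≤ j
  · simp only [if_pos hp]
    exact hG _
  · simp only [if_neg hp]
    exact measurable_const

theorem ins_VT {G : ℕ → (ℕ → ℝ) → ℝ≥0∞} (hG : ∀ b, Measurable (G b)) (l : ℕ → ℝ≥0∞) (B : ℕ)
    (T : Finset ℕ) (L q : ℕ) : Measurable (VT G l B T L q) := by
  have h : VT G l B T L q = fun x => (if q ∈ T then 1 else 0) +
    ∑ D ∈ Finset.Icc 1 (L - 1 - q), l D * CT G T (q + D) (shift ((D - 1) * B) x) := rfl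
  rw [h]
  refine measurable_const.add (Finset.measurable_sum _ fun D _ => ?_)
  exact ((ins_CT hG T (q + D)).comp (measurable_shift _)).const_mul _

theorem ins_rec (F G : ℕ → (ℕ → ℝ) → ℝ≥0∞) (l : ℕ → ℝ≥0∞) (B L p : ℕ) (T : Finset ℕ)
    (hT : ∀ c ∈ T, c < L) (x : ℕ → ℝ)
    (h : ∀ c, G c x ≤ F c x + ∑ b ∈ Finset.range (c + 1), ∑ D ∈ Finset.Icc 1 c,
      if b + D ≤ c then F b x * (l D * G (c - b - D) (shift ((b + D) * B) x)) else 0) :
    CT G T p x ≤ ∑ b ∈ Finset.range (L - p), F b x *
      VT G l B T L (p + b) (shift ((b + 1) * B) x) := by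
  classical
  -- the right side
  have hR : ∑ b ∈ Finset.range (L - p), F b x * VT G l B T L (p + b) (shift ((b + 1) * B) x) =
      (∑ b ∈ Finset.range (L - p), if p + b ∈ T then F b x else 0) +
      ∑ c ∈ T, ∑ b ∈ Finset.range (L - p), ∑ D ∈ Finset.Icc 1 (L - 1 - (p + b)),
        if p + b + D ≤ c then
          F b x * (l D * G (c - (p + b + D)) (shift ((b + D) * B) x)) else 0 := by
    have e1 : ∀ b, F b x * VT G l B T L (p + b) (shift ((b + 1) * B) x) =
        (if p + b ∈ T then F b x else 0) +
        ∑ D ∈ Finset.Icc 1 (L - 1 - (p + b)), ∑ c ∈ T, if p + b + D ≤ c then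
          F b x * (l D * G (c - (p + b + D)) (shift ((b + D) * B) x)) else 0 := by
      intro b
      rw [VT, mul_add, Finset.mul_sum]
      refine congrArg₂ (· + ·) ?_ (Finset.sum_congr rfl fun D hD => ?_)
      · by_cases hb : p + b ∈ T
        · rw [if_pos hb, if_pos hb, mul_one]
        · rw [if_neg hb, if_neg hb, mul_zero]
      · have hD1 := (Finset.mem_Icc.1 hD).1
        have hs : shift ((D - 1) * B) (shift ((b + 1) * B) x) = shift ((b + D) * B) x := by
          rw [shift_shift]
          congr 1
          rw [← Nat.add_mul]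
          congr 1
          omega
        rw [hs, CT, Finset.mul_sum, Finset.mul_sum]
        refine Finset.sum_congr rfl fun c _ => ?_
        by_cases hc : p + b + D ≤ c
        · rw [if_pos hc, if_pos hc]
        · rw [if_neg hc, if_neg hc, mul_zero, mul_zero]
    rw [Finset.sum_congr rfl fun b _ => e1 b, Finset.sum_add_distrib]
    congr 1
    rw [Finset.sum_comm]
    refine Finset.sum_congr rfl fun b _ => ?_
    rw [Finset.sum_comm]
  -- the left side
  have hL : CT G T p x ≤ (∑ c ∈ T, if p ≤ c then F (c - p) x else 0) +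
      ∑ c ∈ T, ∑ b ∈ Finset.range (L - p), ∑ D ∈ Finset.Icc 1 (L - 1 - (p + b)),
        if p + b + D ≤ c then
          F b x * (l D * G (c - (p + b + D)) (shift ((b + D) * B) x)) else 0 := by
    rw [CT, ← Finset.sum_add_distrib]
    refine Finset.sum_le_sum fun c hc => ?_
    by_cases hp : p ≤ c
    · rw [if_pos hp, if_pos hp]
      refine (h (c - p)).trans (add_le_add le_rfl ?_)
      have hcL := hT c hc
      calc _ ≤ ∑ b ∈ Finset.range (c - p + 1), ∑ D ∈ Finset.Icc 1 (L - 1 - (p + b)),
            (if p + b + D ≤ c then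
              F b x * (l D * G (c - (p + b + D)) (shift ((b + D) * B) x)) else 0) := by
            refine Finset.sum_le_sum fun b hb => ?_
            have hb1 := Finset.mem_range.1 hb
            rw [← Finset.sum_filter, ← Finset.sum_filter]
            have e2 : ∀ D, c - p - b - D = c - (p + b + D) := fun D => by omega
            simp only [e2]
            refine Finset.sum_le_sum_of_subset fun D hD => ?_
            rw [Finset.mem_filter, Finset.mem_Icc] at hD ⊢
            omega
        _ ≤ _ := by
            refine Finset.sum_le_sum_of_subset fun b hb => ?_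
            have hb1 := Finset.mem_range.1 hb
            rw [Finset.mem_range]
            omega
    · rw [if_neg hp, if_neg hp, zero_add]
      exact zero_le
  have hM : (∑ c ∈ T, if p ≤ c then F (c - p) x else 0) =
      ∑ b ∈ Finset.range (L - p), if p + b ∈ T then F b x else 0 := by
    rw [← Finset.sum_filter, ← Finset.sum_filter]
    refine Finset.sum_nbij' (fun c => c - p) (fun b => p + b) ?_ ?_ ?_ ?_ ?_
    · intro c hc
      rw [Finset.mem_filter] at hc
      have h1 := hT c hc.1
      have h2 : p + (c - p) = c := by omega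
      rw [Finset.mem_filter, Finset.mem_range, h2]
      exact ⟨by omega, hc.1⟩
    · intro b hb
      rw [Finset.mem_filter] at hb ⊢
      exact ⟨hb.2, by omega⟩
    · intro c hc
      rw [Finset.mem_filter] at hc
      change p + (c - p) = c
      omega
    · intro b _
      change p + b - p = b
      omega
    · intro c _
      rfl
  rw [hR, ← hM]
  exact hL

theorem pf_INS (hPFM : T_PFM) (hBDC : T_BDC) (hBBX : T_BBX) : T_INS := by
  intro K B M l hB hM hl J j hj
  have hw := hPFM.2 K
  have hF := fun b => (hPFM.1 (w1 K B) (hw.1 B)).2.1 B b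
  have hG := fun b => ((hPFM.1 (w1 K (M * B)) (hw.1 (M * B))).2.1 B b).1
  have hBM : B ≤ M * B := Nat.le_mul_of_pos_left B hM
  refine ⟨⟨hF, fun p => ins_CT hG _ p, fun q => ins_VT hG l B _ _ q, ?_, ?_⟩, ?_⟩
  · intro p _ x
    exact ins_rec (fun b => BX (w1 K B) B b) (BX (w1 K (M * B)) B) l B (J * M) p (TT M j)
      (fun c hc => ins_mem hj hc) x fun c => hBDC K B (M * B) l hB hBM hl c x
  · intro q _ x
    exact le_of_eq rfl
  · intro x
    rw [hBBX (w1 K (M * B)) B M j x hB hM]
    refine le_of_eq (Finset.sum_congr rfl fun i _ => ?_)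
    rw [CT, TT, Finset.sum_Ico_eq_sum_range]
    have h1 : (j + 1) * M - j * M = M := by
      rw [Nat.add_mul, one_mul, Nat.add_sub_cancel_left]
    rw [h1]

end Pool.Agent.H89.CE
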